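namespace Pool.Agent.H17.Z12.G

/-- step 0 -/
def g00 : Nat := 0

end Pool.Agent.H17.Z12.G
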