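import Pool.Agent.H17.Z12.G.G25

namespace Pool.Agent.H17.Z12.G

/-- step 26 -/
def g26 : Nat := Nat.succ g25

end Pool.Agent.H17.Z12.G
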