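import Pool.Agent.H17.Z12.G.G49

namespace Pool.Agent.H17.Z12.G

/-- step 50 -/
def g50 : Nat := Nat.succ g49

end Pool.Agent.H17.Z12.G
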